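import Pool.Agent.Helper13.TW.StB

/-!
# Project TW, module RAY2: closed subsets of a half line, one degree lower
-/

set_option autoImplicit false

namespace Pool.Agent.Helper61.TW

open Set Topology Pool.Agent.Helper13.TR Pool.Agent.Helper13.TW

private theorem sep {W : Type} [TopologicalSpace W] {C : Set W} (hC : IsCompact C) (h : C(W, ℝ)) (s : ℝ)
    (hs : ∀ w ∈ C, h w ≠ s) : ∃ δ : ℝ, 0 < δ ∧ ∀ w ∈ C, δ < |h w - s| := by
  have hc : IsClosed (h '' C) := (hC.image h.continuous).isClosed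
  have hn : s ∈ (h '' C)ᶜ := by
    rintro ⟨w, hw, e⟩
    exact hs w hw e
  obtain ⟨ε, hε, hb⟩ := Metric.isOpen_iff.1 hc.isOpen_compl s hn
  refine ⟨ε / 2, by positivity, fun w hw => ?_⟩
  by_contra hcon
  push Not at hcon
  have : h w ∈ Metric.ball s ε := by
    rw [Metric.mem_ball, Real.dist_eq]
    linarith
  exact hb this ⟨w, hw, rfl⟩

private theorem nb (hCON : StCON) (hMON : StMON) {S : Type} [TopologicalSpace S] [T2Space S]
    [LocallyPathConnectedSpace S] {ω : S → Ch S 2 → ℤ} (hWS : WS S ω) (p : S) :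
    ∃ N : Set S, IsOpen N ∧ p ∈ N ∧ ∃ c ∈ Cyc N 2, ∀ y ∈ N,
      ∀ κ ∈ Cyc {y} 2, ∃ m : ℤ, κ - m • c ∈ Nul {y} 2 := by
  have mcin := (hMON S).1
  have mCN := (hMON S).2.2.2.2.1
  obtain ⟨g, hg, hg1⟩ := hWS.one p
  have hb : bd 1 g ∈ cin {p}ᶜ 1 := hg
  obtain ⟨Q, hQ, hQc, hQm⟩ := hCON.2 S 1 (bd 1 g)
  have hpQ : p ∉ Q := fun h => hQm _ hb h rfl
  have hQo : IsOpen Qᶜ := hQ.isClosed.isOpen_compl
  set N := pathComponentIn Qᶜ p with hN
  have hNo : IsOpen N := hQo.pathComponentIn p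
  have hNQ : N ⊆ Qᶜ := pathComponentIn_subset
  have hgN : bd 1 g ∈ cin Nᶜ 1 := mcin Q Nᶜ 1 (fun w hw hwN => hNQ hwN hw) hQc
  refine ⟨N, hNo, mem_pathComponentIn_self hpQ, g, hgN, ?_⟩
  intro y hy κ hκ
  have hgy : g ∈ Cyc {y} 2 := (mCN {y} N 2 (singleton_subset_iff.2 hy)).1 hgN
  have hJ : JoinedIn N p y := by
    have h1 : IsPathConnected N := isPathConnected_pathComponentIn hpQ
    exact h1.joinedIn p (mem_pathComponentIn_self hpQ) y hy
  have hω : ω y g = 1 := by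
    rw [← hWS.loc g N hNo hgN p y hJ, hg1]
  -- additivity
  have h0 : ω y 0 = 0 := hWS.nul y 0 (Submodule.zero_mem _)
  have hneg : ∀ e ∈ Cyc {y} 2, ω y (-e) = -ω y e := by
    intro e he
    have h1 := hWS.add y e he (-e) (Submodule.neg_mem _ he)
    rw [add_neg_cancel, h0] at h1
    linarith
  have hnat : ∀ n : ℕ, ω y ((n : ℤ) • g) = n := by
    intro n
    induction n with
    | zero => simpa using h0
    | succ n ih =>
      have h1 := hWS.add y ((n : ℤ) • g) (Submodule.smul_mem _ _ hgy) g hgy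
      have h2 : ((n + 1 : ℕ) : ℤ) • g = (n : ℤ) • g + g := by
        push_cast
        rw [add_smul, one_smul]
      rw [h2, h1, ih, hω]
      push_cast
      ring
  have hint : ∀ m : ℤ, ω y (m • g) = m := by
    intro m
    rcases Int.eq_nat_or_neg m with ⟨n, rfl | rfl⟩
    · exact hnat n
    · rw [neg_smul, hneg _ (Submodule.smul_mem _ _ hgy), hnat n]
  refine ⟨ω y κ, hWS.ker y _ (Submodule.sub_mem _ hκ (Submodule.smul_mem _ _ hgy)) ?_⟩
  rw [sub_eq_add_neg, hWS.add y κ hκ _ (Submodule.neg_mem _ (Submodule.smul_mem _ _ hgy)),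
    hneg _ (Submodule.smul_mem _ _ hgy), hint]
  ring

theorem hRAY2 (hMV : StMV) (hCON : StCON) (hMON : StMON) (_hSDA : StSDA) : StRAY2 := by
  intro W _ _ _ ω hWS D h hD hinj hcpt hlow σ hσ
  have mcin := (hMON W).1
  have mbd := (hMON W).2.2.2.1
  have mCN := (hMON W).2.2.2.2.1
  have mE := (hMON W).2.2.2.2.2
  -- the sets
  have hDsub : ∀ r : ℝ, (D ∩ h ⁻¹' {r}).Subsingleton := by
    intro r a ha b hb
    apply hinj ha.1 hb.1
    have h1 : h a = r := ha.2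
    have h2 : h b = r := hb.2
    rw [h1, h2]
  have hPP : ∀ r : ℝ, PP (D ∩ h ⁻¹' {r}) 1 := by
    intro r
    rcases (hDsub r).eq_empty_or_singleton with h0 | ⟨p, h0⟩
    · rw [h0]; exact mE 1
    · rw [h0]; exact hWS.low p
  set S : Set ℝ := {r : ℝ | σ ∈ Nul (D ∩ h ⁻¹' Ici r) 1} with hS
  have up : ∀ r r' : ℝ, r ≤ r' → r ∈ S → r' ∈ S := by
    intro r r' hr h1
    exact (mCN (D ∩ h ⁻¹' Ici r') (D ∩ h ⁻¹' Ici r) 1
      (inter_subset_inter_right _ (preimage_mono (Ici_subset_Ici.2 hr)))).2 h1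
  have hne : S.Nonempty := by
    obtain ⟨Q, hQ, hQc, -⟩ := hCON.2 W 1 σ
    obtain ⟨R, hR⟩ := (hQ.image h.continuous).bddAbove
    refine ⟨R + 1, ?_⟩
    show σ ∈ Nul (D ∩ h ⁻¹' Ici (R + 1)) 1
    unfold Nul
    refine Submodule.mem_sup_left ?_
    refine mcin Q _ 1 ?_ hQc
    intro w hw hw2
    have h1 : h w ≤ R := hR ⟨w, hw, rfl⟩
    have h2 : R + 1 ≤ h w := hw2.2
    linarith
  have hall : ∀ r : ℝ, r ∈ S := by
    by_contra hcon
    push Not at hcon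
    obtain ⟨r0, hr0⟩ := hcon
    have hbd : BddBelow S := by
      refine ⟨r0, fun r hr => ?_⟩
      by_contra hc
      push Not at hc
      exact hr0 (up r r0 hc.le hr)
    set s := sInf S with hs
    -- decomposition at `s`
    have hσs : σ ∈ Nul (D ∩ h ⁻¹' {s}) 1 :=
      hPP s ((mCN (D ∩ h ⁻¹' {s}) D 1 inter_subset_left).1 hσ)
    obtain ⟨ρ₁, hρ₁, y₁, ⟨b₁, rfl⟩, e₁⟩ := Submodule.mem_sup.1 hσs
    obtain ⟨Q₁, hQ₁, hQ₁c, hQ₁m⟩ := hCON.2 W 1 ρ₁
    have hQ₁D := hQ₁m _ hρ₁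
    obtain ⟨δ₁, hδ₁, hd₁⟩ := sep (hQ₁.inter_right hD) h s (by
      intro w hw he
      exact hQ₁D hw.1 ⟨hw.2, he⟩)
    -- the neighbourhood
    have hN : ∃ N : Set W, IsOpen N ∧ D ∩ h ⁻¹' {s} ⊆ N ∧ ∃ c ∈ Cyc N 2, ∀ y ∈ N,
        ∀ κ ∈ Cyc {y} 2, ∃ m : ℤ, κ - m • c ∈ Nul {y} 2 := by
      rcases (hDsub s).eq_empty_or_singleton with h0 | ⟨p, h0⟩
      · refine ⟨∅, isOpen_empty, by rw [h0], 0, Submodule.zero_mem _, fun y hy => absurd hy (notMem_empty y)⟩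
      · obtain ⟨N, hN, hp, c, hc, hg⟩ := nb hCON hMON hWS p
        exact ⟨N, hN, by rw [h0]; exact singleton_subset_iff.2 hp, c, hc, hg⟩
    obtain ⟨N, hNo, hNs, c, hc, hg⟩ := hN
    obtain ⟨δ₂, hδ₂, hd₂⟩ := sep ((hcpt (s - 1) (s + 1)).inter_right hNo.isClosed_compl) h s (by
      intro w hw he
      exact hw.2 (hNs ⟨hw.1.1, he⟩))
    set δ := min 1 (min δ₁ δ₂) with hδ
    have hδ0 : 0 < δ := lt_min one_pos (lt_min hδ₁ hδ₂)
    have hδ1 : δ ≤ 1 := min_le_left _ _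
    have hδδ₁ : δ ≤ δ₁ := (min_le_right _ _).trans (min_le_left _ _)
    have hδδ₂ : δ ≤ δ₂ := (min_le_right _ _).trans (min_le_right _ _)
    have hinN : ∀ w ∈ D, |h w - s| ≤ δ → w ∈ N := by
      intro w hw hw2
      by_contra hc2
      have hab := abs_le.1 hw2
      have := hd₂ w ⟨⟨hw, ⟨by linarith, by linarith⟩⟩, hc2⟩
      linarith
    -- the point `r`
    obtain ⟨r, hr, hrs⟩ := exists_lt_of_csInf_lt hne (show sInf S < s + δ by rw [← hs]; linarith)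
    have hsr : s ≤ r := csInf_le hbd hr
    have hr' : σ ∈ Nul (D ∩ h ⁻¹' Ici r) 1 := hr
    obtain ⟨ρ₂, hρ₂, y₂, ⟨b₂, rfl⟩, e₂⟩ := Submodule.mem_sup.1 hr'
    set A₁ := D ∩ h ⁻¹' Icc (s - δ) r with hA₁
    set A₂ := D ∩ h ⁻¹' Ici r with hA₂
    have cA₁ : IsClosed A₁ := hD.inter (isClosed_Icc.preimage h.continuous)
    have cA₂ : IsClosed A₂ := hD.inter (isClosed_Ici.preimage h.continuous)
    have hA₁N : A₁ ⊆ N := by
      rintro w ⟨hw, hw2⟩
      have h1 : s - δ ≤ h w := hw2.1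
      have h2 : h w ≤ r := hw2.2
      exact hinN w hw (abs_le.2 ⟨by linarith, by linarith⟩)
    have hunion : A₁ ∪ A₂ = D ∩ h ⁻¹' Ici (s - δ) := by
      ext w
      constructor
      · rintro (⟨hw, hw2⟩ | ⟨hw, hw2⟩)
        · exact ⟨hw, hw2.1⟩
        · have h2 : r ≤ h w := hw2
          exact ⟨hw, show s - δ ≤ h w by linarith⟩
      · rintro ⟨hw, hw2⟩
        have h1 : s - δ ≤ h w := hw2
        rcases le_total (h w) r with h2 | h2
        · exact Or.inl ⟨hw, ⟨h1, h2⟩⟩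
        · exact Or.inr ⟨hw, h2⟩
    have hinter : A₁ ∩ A₂ = D ∩ h ⁻¹' {r} := by
      ext w
      constructor
      · rintro ⟨⟨hw, hw2⟩, ⟨-, hw3⟩⟩
        have h2 : h w ≤ r := hw2.2
        have h3 : r ≤ h w := hw3
        exact ⟨hw, le_antisymm h2 h3⟩
      · rintro ⟨hw, hw2⟩
        have h2 : h w = r := hw2
        refine ⟨⟨hw, ⟨?_, h2.le⟩⟩, ⟨hw, h2.ge⟩⟩
        rw [h2]; linarith
    have hρ₁A : ρ₁ ∈ cin A₁ᶜ 1 := by
      refine mcin Q₁ _ 1 ?_ hQ₁c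
      rintro w hw ⟨hw1, hw2⟩
      have h1 : s - δ ≤ h w := hw2.1
      have h2 : h w ≤ r := hw2.2
      have h3 := hd₁ w ⟨hw, hw1⟩
      have h4 : |h w - s| ≤ δ := abs_le.2 ⟨by linarith, by linarith⟩
      linarith
    have hMV' := hMV W A₁ A₂ cA₁ cA₂ 1
    have key : σ ∈ Nul (A₁ ∪ A₂) 1 := by
      rcases (hDsub r).eq_empty_or_singleton with h0 | ⟨p', h0⟩
      · refine hMV'.2.2.2.2 ?_ σ ?_ hr'
        · rw [hinter, h0]; exact mE 2
        · rw [← e₁]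
          exact Submodule.add_mem_sup hρ₁A (LinearMap.mem_range_self _ _)
      · have hp'N : p' ∈ N := by
          apply hA₁N
          have : p' ∈ A₁ ∩ A₂ := by rw [hinter, h0]; rfl
          exact this.1
        have hτ : b₁ - b₂ ∈ Cyc {p'} 2 := by
          show bd 1 (b₁ - b₂) ∈ cin {p'}ᶜ 1
          have e3 : bd 1 (b₁ - b₂) = ρ₂ - ρ₁ := by
            rw [map_sub]
            have h1 : bd 1 b₁ = σ - ρ₁ := by rw [← e₁]; abel
            have h2 : bd 1 b₂ = σ - ρ₂ := by rw [← e₂]; abel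
            rw [h1, h2]; abel
          rw [e3]
          have hpi : ({p'} : Set W) = A₁ ∩ A₂ := by rw [hinter, h0]
          refine Submodule.sub_mem _ ?_ ?_
          · refine mcin A₂ᶜ _ 1 (compl_subset_compl.2 ?_) hρ₂
            rw [hpi]; exact inter_subset_right
          · refine mcin A₁ᶜ _ 1 (compl_subset_compl.2 ?_) hρ₁A
            rw [hpi]; exact inter_subset_left
        obtain ⟨m, hm⟩ := hg p' hp'N (b₁ - b₂) hτ
        refine hMV'.1 (b₁ - b₂ - m • c) σ ⟨b₁ - m • c, b₂, by abel, ?_, ?_⟩ ?_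
        · have e3 : σ - bd 1 (b₁ - m • c) = ρ₁ + m • bd 1 c := by
            rw [map_sub, map_zsmul, ← e₁]; abel
          rw [e3]
          refine Submodule.add_mem _ hρ₁A (Submodule.smul_mem _ m ?_)
          have h5 : bd 1 c ∈ cin Nᶜ 1 := hc
          exact mcin Nᶜ _ 1 (compl_subset_compl.2 hA₁N) h5
        · have e3 : σ - bd 1 b₂ = ρ₂ := by rw [← e₂]; abel
          rw [e3]; exact hρ₂
        · rw [hinter, h0]; exact hm
    rw [hunion] at key
    have h6 : s - δ ∈ S := key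
    have h7 := csInf_le hbd h6
    rw [← hs] at h7
    linarith
  obtain ⟨ε, hε⟩ := hlow
  have h8 : σ ∈ Nul (D ∩ h ⁻¹' Ici ε) 1 := hall ε
  have h9 : D ∩ h ⁻¹' Ici ε = D := by
    apply inter_eq_left.2
    intro w hw
    exact hε w hw
  rwa [h9] at h8

end Pool.Agent.Helper61.TW
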