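import Pool.Agent.Helper31.TW.St2

set_option autoImplicit false

/-!
# Project TW (MP_434a84_lc): module EV1 (basic facts on `Ev`).
-/

namespace Pool.Agent.Helper61.TW

open Pool.Agent.Helper31.TW

private theorem dot_ray {n : ℕ} (α x y : Fin n → ℤ) (k : ℤ) :
    dot α (x + k • y) = dot α x + k * dot α y := by
  simp only [dot, Pi.add_apply, Pi.smul_apply, smul_eq_mul, Finset.mul_sum]
  rw [← Finset.sum_add_distrib]
  exact Finset.sum_congr rfl fun i _ => by ring

private theorem clip_hi {K : ℕ} {z : ℤ} (h : (K : ℤ) ≤ z) : clip K z = K := by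
  unfold clip
  omega

private theorem clip_lo {K : ℕ} {z : ℤ} (h : z ≤ -(K : ℤ)) : clip K z = -(K : ℤ) := by
  unfold clip
  omega

/-- The limit of the cut off values along a ray. -/
private def lim {n : ℕ} (K : ℕ) (x y α : Fin n → ℤ) : ℤ :=
  if dot α y = 0 then clip K (dot α x) else if 0 < dot α y then (K : ℤ) else -(K : ℤ)

private theorem stab1 {n : ℕ} (K : ℕ) (x y α : Fin n → ℤ) :
    ∃ k0 : ℕ, ∀ k : ℕ, k0 ≤ k → clip K (dot α (x + (k : ℤ) • y)) = lim K x y α := by
  refine ⟨K + (dot α x).natAbs, fun k hk => ?_⟩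
  have hk' : (K : ℤ) + |dot α x| ≤ (k : ℤ) := by
    rw [← Int.natCast_natAbs]
    exact_mod_cast hk
  have h1 := neg_abs_le (dot α x)
  have h2 := le_abs_self (dot α x)
  have h3 : (0 : ℤ) ≤ (k : ℤ) := Int.natCast_nonneg k
  rw [dot_ray]
  unfold lim
  by_cases h0 : dot α y = 0
  · rw [if_pos h0, h0]
    simp
  · rw [if_neg h0]
    by_cases h : 0 < dot α y
    · rw [if_pos h]
      apply clip_hi
      have h4 : (k : ℤ) * 1 ≤ (k : ℤ) * dot α y := mul_le_mul_of_nonneg_left (by omega) h3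
      linarith
    · rw [if_neg h]
      apply clip_lo
      have h4 : (k : ℤ) * dot α y ≤ (k : ℤ) * (-1) := mul_le_mul_of_nonneg_left (by omega) h3
      linarith

private theorem stab {n : ℕ} (K : ℕ) (x y : Fin n → ℤ) (𝓐 : Finset (Fin n → ℤ)) :
    ∃ k0 : ℕ, ∀ k : ℕ, k0 ≤ k → ∀ α ∈ 𝓐, clip K (dot α (x + (k : ℤ) • y)) = lim K x y α := by
  choose f hf using fun α => stab1 K x y α
  refine ⟨𝓐.sup f, fun k hk α hα => hf α k (le_trans (Finset.le_sup hα) hk)⟩

theorem hEV1 : StEV1 := by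
  intro n M 𝓐 K hD
  have key : ∀ x y : Fin n → ℤ, ∃ k0 : ℕ, ∀ k k' : ℕ, k0 ≤ k → k0 ≤ k' →
      (M (x + (k : ℤ) • y) ↔ M (x + (k' : ℤ) • y)) := by
    intro x y
    obtain ⟨k0, h0⟩ := stab K x y 𝓐
    refine ⟨k0, fun k k' hk hk' => hD _ _ fun α hα => ?_⟩
    rw [h0 k hk α hα, h0 k' hk' α hα]
  refine ⟨?_, ?_, ?_⟩
  · intro x y
    obtain ⟨k0, h0⟩ := key x y
    constructor
    · rintro ⟨a, ha⟩ ⟨b, hb⟩
      exact ha (max a b) (le_max_left _ _) (hb (max a b) (le_max_right _ _))
    · intro h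
      refine ⟨k0, fun k hk hM => h ⟨k0, fun k' hk' => (h0 k k' hk hk').1 hM⟩⟩
  · intro x y h
    obtain ⟨k0, h0⟩ := key x y
    obtain ⟨k, hk, hM⟩ := h k0
    exact ⟨k0, fun k' hk' => (h0 k k' hk hk').1 hM⟩
  · intro x x' y y' hs hd
    obtain ⟨a, ha⟩ := stab K x y 𝓐
    obtain ⟨b, hb⟩ := stab K x' y' 𝓐
    have hl : ∀ α ∈ 𝓐, lim K x y α = lim K x' y' α := by
      intro α hα
      have h1 := hs α hα
      unfold lim
      by_cases h0 : dot α y = 0
      · have h0' : dot α y' = 0 := by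
          rw [h0, Int.sign_zero] at h1
          exact Int.sign_eq_zero_iff_zero.1 h1.symm
        rw [if_pos h0, if_pos h0', hd α hα h0]
      · have h0' : dot α y' ≠ 0 := by
          intro h
          rw [h, Int.sign_zero] at h1
          exact h0 (Int.sign_eq_zero_iff_zero.1 h1)
        rw [if_neg h0, if_neg h0']
        by_cases h : 0 < dot α y
        · have h' : 0 < dot α y' := by
            rw [Int.sign_eq_one_of_pos h] at h1
            exact Int.sign_eq_one_iff_pos.1 h1.symm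
          rw [if_pos h, if_pos h']
        · have h' : ¬ 0 < dot α y' := by
            intro hh
            rw [Int.sign_eq_one_of_pos hh] at h1
            exact h (Int.sign_eq_one_iff_pos.1 h1)
          rw [if_neg h, if_neg h']
    have hM : ∀ k : ℕ, max a b ≤ k → (M (x + (k : ℤ) • y) ↔ M (x' + (k : ℤ) • y')) := by
      intro k hk
      refine hD _ _ fun α hα => ?_
      rw [ha k (le_trans (le_max_left _ _) hk) α hα, hb k (le_trans (le_max_right _ _) hk) α hα,
        hl α hα]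
    constructor
    · rintro ⟨c, hc⟩
      exact ⟨max c (max a b), fun k hk => (hM k (le_trans (le_max_right _ _) hk)).1
        (hc k (le_trans (le_max_left _ _) hk))⟩
    · rintro ⟨c, hc⟩
      exact ⟨max c (max a b), fun k hk => (hM k (le_trans (le_max_right _ _) hk)).2
        (hc k (le_trans (le_max_left _ _) hk))⟩

end Pool.Agent.Helper61.TW
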