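import Pool.Agent.Helper9.TW.St

set_option autoImplicit false

noncomputable section

namespace Pool.Agent.Helper61.TW

open Finset
open Pool.Agent.Helper9.TW
open Pool.Agent.Helper15.AB (StDB)

/-- index of the part which contains `m` -/
def idx (η : ℝ) (m : ℕ) : ℕ := ⌈Real.log m / Real.log (1 + η)⌉₊

theorem idx_spec (η : ℝ) (hη : 0 < η) (m : ℕ) (hm : 1 ≤ m) :
    (1 + η) ^ (idx η m) / (1 + η) < (m : ℝ) ∧ (m : ℝ) ≤ (1 + η) ^ (idx η m) := by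
  have hm0 : (0 : ℝ) < m := by exact_mod_cast hm
  have hm1 : (1 : ℝ) ≤ m := by exact_mod_cast hm
  have h1 : (0 : ℝ) < 1 + η := by linarith
  have hl : 0 < Real.log (1 + η) := Real.log_pos (by linarith)
  have hlm : 0 ≤ Real.log m := Real.log_nonneg hm1
  constructor
  · rw [div_lt_iff₀ h1]
    have h2 := Nat.ceil_lt_add_one (div_nonneg hlm hl.le)
    have h3 : (idx η m : ℝ) * Real.log (1 + η) < Real.log m + Real.log (1 + η) := by
      have := mul_lt_mul_of_pos_right h2 hl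
      rw [add_mul, div_mul_cancel₀ _ hl.ne', one_mul] at this
      exact this
    rw [← Real.log_pow, ← Real.log_mul hm0.ne' h1.ne'] at h3
    exact (Real.log_lt_log_iff (by positivity) (by positivity)).1 h3
  · have h2 := Nat.le_ceil (Real.log m / Real.log (1 + η))
    rw [div_le_iff₀ hl, ← Real.log_pow] at h2
    exact (Real.log_le_log_iff hm0 (by positivity)).1 h2

theorem idx_le (η : ℝ) (hη : 0 < η) (a m : ℕ) (hm : 1 ≤ m) (hma : m ≤ a) :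
    idx η m ≤ idx η a := by
  have hm0 : (0 : ℝ) < m := by exact_mod_cast hm
  have hl : 0 < Real.log (1 + η) := Real.log_pos (by linarith)
  exact Nat.ceil_mono (div_le_div_of_nonneg_right
    (Real.log_le_log hm0 (by exact_mod_cast hma)) hl.le)

theorem idx_bd (η : ℝ) (hη : 0 < η) (hη1 : η ≤ 1) (a : ℕ) (ha : 1 ≤ a) :
    ((idx η a : ℕ) : ℝ) + 1 ≤ 2 * Real.log a / η + 2 := by
  have ha1 : (1 : ℝ) ≤ a := by exact_mod_cast ha
  have hl : 0 < Real.log (1 + η) := Real.log_pos (by linarith)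
  have hlm : 0 ≤ Real.log a := Real.log_nonneg ha1
  have h2 := Nat.ceil_lt_add_one (div_nonneg hlm hl.le)
  have h3 : η / 2 ≤ Real.log (1 + η) := by
    have h4 := Real.one_sub_inv_le_log_of_pos (x := 1 + η) (by linarith)
    refine le_trans ?_ h4
    have h5 : 1 - (1 + η)⁻¹ = η / (1 + η) := by
      field_simp
      ring
    rw [h5]
    exact div_le_div_of_nonneg_left hη.le (by linarith) (by linarith)
  have h6 : Real.log a / Real.log (1 + η) ≤ Real.log a / (η / 2) :=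
    div_le_div_of_nonneg_left hlm (by linarith) h3
  have h7 : Real.log a / (η / 2) = 2 * Real.log a / η := by
    field_simp
  have h8 : ((idx η a : ℕ) : ℝ) < Real.log a / Real.log (1 + η) + 1 := h2
  linarith

theorem cast_sub_le (x y : ℕ) (z : ℝ) (h0 : 0 ≤ z) (h : (x : ℝ) - y ≤ z) :
    ((x - y : ℕ) : ℝ) ≤ z := by
  rcases le_total y x with h1 | h1
  · rw [Nat.cast_sub h1]; exact h
  · rw [Nat.sub_eq_zero_of_le h1]; simpa using h0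

theorem near_card (a : ℕ) (η : ℝ) (hη : 0 < η) :
    (((Bb a).filter (fun b : ℕ => ((b : ℝ) ≤ a / 4 + η * a + 2 ∨
      (a : ℝ) / 2 - η * a - 2 ≤ b))).card : ℝ) ≤ 2 * η * a + 6 := by
  have ha0 : (0 : ℝ) ≤ a := Nat.cast_nonneg a
  have hηa : 0 ≤ η * a := mul_nonneg hη.le ha0
  rw [filter_or]
  have h1 : ((Bb a).filter (fun b : ℕ => (b : ℝ) ≤ a / 4 + η * a + 2)).card ≤
      ⌊(a : ℝ) / 4 + η * a + 2⌋₊ - a / 4 := by
    rw [← Nat.card_Ioc]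
    apply card_le_card
    intro b hb
    rw [mem_filter, Bb, mem_Ioc] at hb
    rw [mem_Ioc]
    exact ⟨hb.1.1, Nat.le_floor hb.2⟩
  have h2 : ((Bb a).filter (fun b : ℕ => (a : ℝ) / 2 - η * a - 2 ≤ b)).card ≤
      a / 2 + 1 - ⌈(a : ℝ) / 2 - η * a - 2⌉₊ := by
    rw [← Nat.card_Icc]
    apply card_le_card
    intro b hb
    rw [mem_filter, Bb, mem_Ioc] at hb
    rw [mem_Icc]
    exact ⟨Nat.ceil_le.2 hb.2, hb.1.2⟩
  have h3 : ((⌊(a : ℝ) / 4 + η * a + 2⌋₊ - a / 4 : ℕ) : ℝ) ≤ η * a + 3 := by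
    apply cast_sub_le _ _ _ (by linarith)
    have h4 := Nat.floor_le (a := (a : ℝ) / 4 + η * a + 2) (by positivity)
    have h5 : (a : ℝ) < (a / 4 : ℕ) * 4 + 4 := by exact_mod_cast Nat.lt_div_mul_add (a := a) (b := 4) (by norm_num)
    linarith
  have h6 : ((a / 2 + 1 - ⌈(a : ℝ) / 2 - η * a - 2⌉₊ : ℕ) : ℝ) ≤ η * a + 3 := by
    apply cast_sub_le _ _ _ (by linarith)
    have h4 := Nat.le_ceil ((a : ℝ) / 2 - η * a - 2)
    have h5 : ((a / 2 : ℕ) : ℝ) ≤ (a : ℝ) / (2 : ℕ) := Nat.cast_div_le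
    push_cast at h5 ⊢
    linarith
  have h7 := card_union_le ((Bb a).filter (fun b : ℕ => (b : ℝ) ≤ a / 4 + η * a + 2))
    ((Bb a).filter (fun b : ℕ => (a : ℝ) / 2 - η * a - 2 ≤ b))
  have h8 : ((((Bb a).filter (fun b : ℕ => (b : ℝ) ≤ a / 4 + η * a + 2)) ∪
    ((Bb a).filter (fun b : ℕ => (a : ℝ) / 2 - η * a - 2 ≤ b))).card : ℝ) ≤
      ((⌊(a : ℝ) / 4 + η * a + 2⌋₊ - a / 4 : ℕ) : ℝ) +
        ((a / 2 + 1 - ⌈(a : ℝ) / 2 - η * a - 2⌉₊ : ℕ) : ℝ) := by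
    exact_mod_cast h7.trans (Nat.add_le_add h1 h2)
  linarith

/-- number of `b` near the ends with `q ∣ a b + 1` -/
def nr (a : ℕ) (η : ℝ) (q : ℕ) : ℕ :=
  ((Bb a).filter (fun b : ℕ => ((b : ℝ) ≤ a / 4 + η * a + 2 ∨ (a : ℝ) / 2 - η * a - 2 ≤ b) ∧
    q ∣ a * b + 1)).card

theorem near_sum (a : ℕ) (η t : ℝ) (S T : Finset ℕ) (hη : 0 < η)
    (ht : ∀ b ∈ Bb a, (((a * b + 1).divisors.card : ℕ) : ℝ) ≤ t) :
    ∑ m ∈ S, ∑ n ∈ T, (nr a η (m * n) : ℝ) ≤ (2 * η * a + 6) * t ^ 2 := by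
  have h1 : ∑ m ∈ S, ∑ n ∈ T, nr a η (m * n) ≤
      ∑ b ∈ (Bb a).filter (fun b : ℕ => ((b : ℝ) ≤ a / 4 + η * a + 2 ∨
        (a : ℝ) / 2 - η * a - 2 ≤ b)), ((a * b + 1).divisors.card) ^ 2 := by
    rw [← Finset.sum_product' (s := S) (t := T) (f := fun m n => nr a η (m * n))]
    have e1 : ∀ x ∈ S ×ˢ T, nr a η (x.1 * x.2) = ∑ b ∈ (Bb a).filter (fun b : ℕ =>
        ((b : ℝ) ≤ a / 4 + η * a + 2 ∨ (a : ℝ) / 2 - η * a - 2 ≤ b)),
        if x.1 * x.2 ∣ a * b + 1 then 1 else 0 := by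
      intro x _
      rw [← card_filter, filter_filter]
      rfl
    rw [sum_congr rfl e1, sum_comm]
    refine sum_le_sum fun b _ => ?_
    rw [← card_filter]
    have h2 : ((S ×ˢ T).filter (fun x => x.1 * x.2 ∣ a * b + 1)).card ≤
        ((a * b + 1).divisors ×ˢ (a * b + 1).divisors).card := by
      apply card_le_card
      intro x hx
      rw [mem_filter] at hx
      rw [mem_product, Nat.mem_divisors, Nat.mem_divisors]
      exact ⟨⟨(Dvd.intro _ rfl).trans hx.2, by omega⟩, ⟨(Dvd.intro_left _ rfl).trans hx.2, by omega⟩⟩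
    rw [card_product] at h2
    rw [sq]
    exact h2
  have h2 : ∑ m ∈ S, ∑ n ∈ T, (nr a η (m * n) : ℝ) ≤
      ∑ b ∈ (Bb a).filter (fun b : ℕ => ((b : ℝ) ≤ a / 4 + η * a + 2 ∨
        (a : ℝ) / 2 - η * a - 2 ≤ b)), (((a * b + 1).divisors.card : ℕ) : ℝ) ^ 2 := by
    exact_mod_cast h1
  refine h2.trans ?_
  have h3 : ∀ b ∈ (Bb a).filter (fun b : ℕ => ((b : ℝ) ≤ a / 4 + η * a + 2 ∨
        (a : ℝ) / 2 - η * a - 2 ≤ b)), (((a * b + 1).divisors.card : ℕ) : ℝ) ^ 2 ≤ t ^ 2 := by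
    intro b hb
    exact pow_le_pow_left₀ (Nat.cast_nonneg _) (ht b (mem_filter.1 hb).1) 2
  refine (sum_le_card_nsmul _ _ _ h3).trans ?_
  rw [nsmul_eq_mul]
  exact mul_le_mul_of_nonneg_right (near_card a η hη) (sq_nonneg t)

theorem harm (a : ℕ) (S : Finset ℕ) (hS : S ⊆ Icc 1 a) :
    ∑ m ∈ S, (1 : ℝ) / m ≤ 1 + Real.log a := by
  refine (sum_le_sum_of_subset_of_nonneg hS fun m _ _ => by positivity).trans ?_
  have h := harmonic_le_one_add_log a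
  rw [harmonic_eq_sum_Icc] at h
  push_cast at h
  simpa only [one_div] using h

theorem box_num (A D δ M N E μ ν : ℝ) (hA : 1 ≤ A) (hD : 1 ≤ D) (hδ : 0 < δ) (hδ1 : δ ≤ 1 / 100)
    (hDA : D ≤ A ^ (δ / 10)) (hM0 : 0 ≤ M) (hMX : M ≤ A ^ (1 - δ)) (hMμ : M ≤ 2 * μ) (hμ : 0 < μ)
    (hN0 : 0 ≤ N) (hNY : N ≤ A ^ (1 / 8 - δ)) (hNν : N ≤ 2 * ν) (hν : 0 < ν) (hE0 : 0 ≤ E)
    (hE : E ≤ A ^ 2 / (μ * ν)) :
    (A * D) ^ (δ / 100) * (M ^ (1 / 2 : ℝ) * (A * D) ^ (3 / 8 : ℝ) * D ^ (1 / 8 : ℝ) * N +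
      M * (N * E / (A * D)) ^ (1 / 2 : ℝ)) ≤ 3 * A ^ (1 - 12 / 25 * δ) := by
  have hA0 : 0 < A := by linarith
  have hD0 : 0 < D := by linarith
  have hAD : 0 < A * D := mul_pos hA0 hD0
  -- (i)
  have h1 : (A * D) ^ (δ / 100) ≤ A ^ (δ / 50) := by
    have h2 : A * D ≤ A ^ (2 : ℝ) := by
      have : D ≤ A ^ (1 : ℝ) := hDA.trans (Real.rpow_le_rpow_of_exponent_le hA (by linarith))
      rw [Real.rpow_one] at this
      rw [Real.rpow_two, sq]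
      exact mul_le_mul_of_nonneg_left this hA0.le
    calc (A * D) ^ (δ / 100) ≤ (A ^ (2 : ℝ)) ^ (δ / 100) :=
          Real.rpow_le_rpow hAD.le h2 (by linarith)
      _ = A ^ (δ / 50) := by
          rw [← Real.rpow_mul hA0.le]
          congr 1
          ring
  -- (ii)
  have h2 : M ^ (1 / 2 : ℝ) * (A * D) ^ (3 / 8 : ℝ) * D ^ (1 / 8 : ℝ) * N ≤ A ^ (1 - δ / 2) := by
    have e1 : M ^ (1 / 2 : ℝ) ≤ A ^ ((1 - δ) * (1 / 2)) := by
      rw [Real.rpow_mul hA0.le]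
      exact Real.rpow_le_rpow hM0 hMX (by norm_num)
    have e2 : (A * D) ^ (3 / 8 : ℝ) * D ^ (1 / 8 : ℝ) ≤ A ^ (3 / 8 + δ / 20) := by
      rw [Real.mul_rpow hA0.le hD0.le, mul_assoc, ← Real.rpow_add hD0, Real.rpow_add hA0]
      refine mul_le_mul_of_nonneg_left ?_ (Real.rpow_nonneg hA0.le _)
      calc D ^ ((3 / 8 : ℝ) + 1 / 8) ≤ (A ^ (δ / 10)) ^ ((3 / 8 : ℝ) + 1 / 8) :=
            Real.rpow_le_rpow hD0.le hDA (by norm_num)
        _ = A ^ (δ / 20) := by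
            rw [← Real.rpow_mul hA0.le]
            congr 1
            ring
    have e3 : M ^ (1 / 2 : ℝ) * ((A * D) ^ (3 / 8 : ℝ) * D ^ (1 / 8 : ℝ)) ≤
        A ^ ((1 - δ) * (1 / 2)) * A ^ (3 / 8 + δ / 20) :=
      mul_le_mul e1 e2 (by positivity) (by positivity)
    have e4 : M ^ (1 / 2 : ℝ) * ((A * D) ^ (3 / 8 : ℝ) * D ^ (1 / 8 : ℝ)) * N ≤
        A ^ ((1 - δ) * (1 / 2)) * A ^ (3 / 8 + δ / 20) * A ^ (1 / 8 - δ) :=
      mul_le_mul e3 hNY hN0 (by positivity)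
    rw [← Real.rpow_add hA0, ← Real.rpow_add hA0] at e4
    calc M ^ (1 / 2 : ℝ) * (A * D) ^ (3 / 8 : ℝ) * D ^ (1 / 8 : ℝ) * N
        = M ^ (1 / 2 : ℝ) * ((A * D) ^ (3 / 8 : ℝ) * D ^ (1 / 8 : ℝ)) * N := by ring
      _ ≤ _ := e4
      _ ≤ A ^ (1 - δ / 2) := Real.rpow_le_rpow_of_exponent_le hA (by linarith)
  -- (iii)
  have h3 : M * (N * E / (A * D)) ^ (1 / 2 : ℝ) ≤ 2 * A ^ (1 - δ / 2) := by
    have hq0 : 0 ≤ N * E / (A * D) := div_nonneg (mul_nonneg hN0 hE0) hAD.le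
    have hq : N * E / (A * D) ≤ 2 * A / μ := by
      have q1 : N * E ≤ 2 * ν * (A ^ 2 / (μ * ν)) :=
        mul_le_mul hNν hE hE0 (by linarith)
      have q2 : 2 * ν * (A ^ 2 / (μ * ν)) = 2 * A / μ * A := by
        field_simp
      rw [div_le_iff₀ hAD]
      have q3 : 2 * A / μ * A ≤ 2 * A / μ * (A * D) := by
        refine mul_le_mul_of_nonneg_left ?_ (by positivity)
        nlinarith
      linarith
    have hsq : (M * (N * E / (A * D)) ^ (1 / 2 : ℝ)) ^ 2 ≤ (2 * A ^ (1 - δ / 2)) ^ 2 := by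
      have s1 : ((N * E / (A * D)) ^ (1 / 2 : ℝ)) ^ 2 = N * E / (A * D) := by
        rw [← Real.rpow_natCast, ← Real.rpow_mul hq0]
        norm_num
      have s2 : (A ^ (1 - δ / 2)) ^ 2 = A ^ (1 - δ) * A := by
        rw [← Real.rpow_natCast, ← Real.rpow_mul hA0.le]
        nth_rewrite 3 [← Real.rpow_one A]
        rw [← Real.rpow_add hA0]
        congr 1
        push_cast
        ring
      rw [mul_pow, mul_pow, s1, s2]
      calc M ^ 2 * (N * E / (A * D)) ≤ M ^ 2 * (2 * A / μ) :=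
            mul_le_mul_of_nonneg_left hq (sq_nonneg M)
        _ = M * (M * (2 * A / μ)) := by ring
        _ ≤ M * (2 * μ * (2 * A / μ)) := by
            refine mul_le_mul_of_nonneg_left (mul_le_mul_of_nonneg_right hMμ (by positivity)) hM0
        _ = M * (4 * A) := by
            field_simp
            ring
        _ ≤ A ^ (1 - δ) * (4 * A) := mul_le_mul_of_nonneg_right hMX (by positivity)
        _ = 2 ^ 2 * (A ^ (1 - δ) * A) := by ring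
    exact le_of_sq_le_sq hsq (by positivity)
  calc (A * D) ^ (δ / 100) * (M ^ (1 / 2 : ℝ) * (A * D) ^ (3 / 8 : ℝ) * D ^ (1 / 8 : ℝ) * N +
      M * (N * E / (A * D)) ^ (1 / 2 : ℝ))
      ≤ A ^ (δ / 50) * (A ^ (1 - δ / 2) + 2 * A ^ (1 - δ / 2)) := by
        refine mul_le_mul h1 (add_le_add h2 h3) ?_ (by positivity)
        positivity
    _ = 3 * (A ^ (δ / 50) * A ^ (1 - δ / 2)) := by ring
    _ = 3 * A ^ (1 - 12 / 25 * δ) := by
        rw [← Real.rpow_add hA0]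
        congr 2
        ring

theorem sum_ext (A B S T : Finset ℕ) (hS : S ⊆ A) (hT : T ⊆ B) (al be : ℕ → ℝ) (G : ℕ → ℕ → ℝ) :
    ∑ m ∈ A, ∑ n ∈ B, (if m ∈ S then al m else 0) * (if n ∈ T then be n else 0) * G m n =
      ∑ m ∈ S, ∑ n ∈ T, al m * be n * G m n := by
  rw [← sum_subset hS]
  · refine sum_congr rfl fun m hm => ?_
    rw [← sum_subset hT]
    · refine sum_congr rfl fun n hn => ?_
      rw [if_pos hm, if_pos hn]
    · intro n _ hn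
      rw [if_neg hn]
      ring
  · intro m _ hm
    refine sum_eq_zero fun n _ => ?_
    rw [if_neg hm]
    ring

theorem part_bd (ε C₁ R X Y η : ℝ) (a d β i j : ℕ) (al be : ℕ → ℝ) (hC₁ : 0 ≤ C₁)
    (hX : ∀ (κ : ℤ) (M₁ M₂ N₂ E₁ E₂ : ℕ) (al be : ℕ → ℝ), IsCoprime κ (a : ℤ) → M₁ ≤ M₂ →
      M₂ ≤ M₁ + a * d → N₂ ≤ a * d → E₁ ≤ E₂ → (∀ m, |al m| ≤ 1) → (∀ n, |be n| ≤ 1) →
      |∑ m ∈ (Ioc M₁ M₂).filter (fun m => Nat.Coprime m (a * d)),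
        ∑ n ∈ (Icc 1 N₂).filter (fun n => Nat.Coprime n (a * d)), al m * be n *
          ((((Ioc E₁ E₂).filter (fun e : ℕ => ((a * d : ℕ) : ℤ) ∣ (m : ℤ) * n * e - κ)).card : ℝ) -
            ((E₂ : ℝ) - E₁) / ((a * d : ℕ) : ℝ))| ≤
        C₁ * ((a * d : ℕ) : ℝ) ^ ε * (((M₂ : ℝ) - M₁) ^ (1 / 2 : ℝ) * ((a * d : ℕ) : ℝ) ^ (3 / 8 : ℝ) *
          (d : ℝ) ^ (1 / 8 : ℝ) * N₂ +
          ((M₂ : ℝ) - M₁) * ((N₂ : ℝ) * ((E₂ : ℝ) - E₁) / ((a * d : ℕ) : ℝ)) ^ (1 / 2 : ℝ)))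
    (hE : StEDG) (ha : 1 ≤ a) (hd : 1 ≤ d) (hβ : β < d) (hη : 0 < η) (hη1 : η ≤ 1 / 10)
    (hal : ∀ m, |al m| ≤ 1) (hbe : ∀ n, |be n| ≤ 1) (hXa : X ≤ a) (hX0 : 0 ≤ X) (hYa : Y ≤ a)
    (hY0 : 0 ≤ Y) (hR0 : 0 ≤ R)
    (hR : ∀ M N E μ ν : ℝ, 0 ≤ M → M ≤ X → M ≤ 2 * μ → 0 < μ → 0 ≤ N → N ≤ Y → N ≤ 2 * ν → 0 < ν →
      0 ≤ E → E ≤ (a : ℝ) ^ 2 / (μ * ν) →
      ((a * d : ℕ) : ℝ) ^ ε * (M ^ (1 / 2 : ℝ) * ((a * d : ℕ) : ℝ) ^ (3 / 8 : ℝ) *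
        (d : ℝ) ^ (1 / 8 : ℝ) * N + M * (N * E / ((a * d : ℕ) : ℝ)) ^ (1 / 2 : ℝ)) ≤ R) :
    |∑ m ∈ ((Icc 1 ⌊X⌋₊).filter (fun m => Nat.Coprime m (a * d))).filter (fun m => idx η m = i),
      ∑ n ∈ ((Icc 1 ⌊Y⌋₊).filter (fun n => Nat.Coprime n (a * d))).filter (fun n => idx η n = j),
        al m * be n * ((cb a d β (m * n) : ℝ) - ((Bb a).card : ℝ) / (d * m * n))| ≤
    ∑ m ∈ ((Icc 1 ⌊X⌋₊).filter (fun m => Nat.Coprime m (a * d))).filter (fun m => idx η m = i),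
      ∑ n ∈ ((Icc 1 ⌊Y⌋₊).filter (fun n => Nat.Coprime n (a * d))).filter (fun n => idx η n = j),
        ((nr a η (m * n) : ℝ) + (2 / a + 10 * η * a * ((1 / m) * (1 / n)))) + C₁ * R := by
  set S := ((Icc 1 ⌊X⌋₊).filter (fun m => Nat.Coprime m (a * d))).filter (fun m => idx η m = i)
    with hS
  set T := ((Icc 1 ⌊Y⌋₊).filter (fun n => Nat.Coprime n (a * d))).filter (fun n => idx η n = j)
    with hT
  have ha1 : (1 : ℝ) ≤ a := by exact_mod_cast ha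
  have hd1 : (1 : ℝ) ≤ d := by exact_mod_cast hd
  have hpos : 0 ≤ C₁ * R := mul_nonneg hC₁ hR0
  have herr : 0 ≤ ∑ m ∈ S, ∑ n ∈ T,
      ((nr a η (m * n) : ℝ) + (2 / a + 10 * η * a * ((1 / m) * (1 / n)))) :=
    sum_nonneg fun m _ => sum_nonneg fun n _ => by positivity
  have hSm : ∀ m ∈ S, 1 ≤ m ∧ m ≤ ⌊X⌋₊ ∧ Nat.Coprime m (a * d) ∧ idx η m = i := by
    intro m hm
    rw [hS, mem_filter, mem_filter, mem_Icc] at hm
    exact ⟨hm.1.1.1, hm.1.1.2, hm.1.2, hm.2⟩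
  have hTn : ∀ n ∈ T, 1 ≤ n ∧ n ≤ ⌊Y⌋₊ ∧ Nat.Coprime n (a * d) ∧ idx η n = j := by
    intro m hm
    rw [hT, mem_filter, mem_filter, mem_Icc] at hm
    exact ⟨hm.1.1.1, hm.1.1.2, hm.1.2, hm.2⟩
  rcases S.eq_empty_or_nonempty with hSe | ⟨m₀, hm₀⟩
  · rw [hSe]
    simpa using hpos
  rcases T.eq_empty_or_nonempty with hTe | ⟨n₀, hn₀⟩
  · rw [hTe]
    simpa using hpos
  have h1η : 0 < 1 + η := by linarith
  set μ : ℝ := (1 + η) ^ i / (1 + η) with hμ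
  set ν : ℝ := (1 + η) ^ j / (1 + η) with hν
  have hμ0 : 0 < μ := by positivity
  have hν0 : 0 < ν := by positivity
  have hμe : (1 + η) ^ i = (1 + η) * μ := by rw [hμ]; field_simp
  have hνe : (1 + η) ^ j = (1 + η) * ν := by rw [hν]; field_simp
  have hSμ : ∀ m ∈ S, μ < (m : ℝ) ∧ (m : ℝ) ≤ (1 + η) * μ := by
    intro m hm
    have h := hSm m hm
    have h2 := idx_spec η hη m h.1
    rw [h.2.2.2, ← hμ, hμe] at h2
    exact h2
  have hTν : ∀ n ∈ T, ν < (n : ℝ) ∧ (n : ℝ) ≤ (1 + η) * ν := by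
    intro m hm
    have h := hTn m hm
    have h2 := idx_spec η hη m h.1
    rw [h.2.2.2, ← hν, hνe] at h2
    exact h2
  obtain ⟨E₁, E₂, hE12, hEb, hEq⟩ := hE a d β η (μ * ν) ha hd hβ hη hη1 (mul_pos hμ0 hν0)
  -- the box
  set M₁ := ⌊μ⌋₊ with hM₁
  set M₂ := min ⌊(1 + η) * μ⌋₊ ⌊X⌋₊ with hM₂
  set N₂ := min ⌊(1 + η) * ν⌋₊ ⌊Y⌋₊ with hN₂
  have hSA : S ⊆ (Ioc M₁ M₂).filter (fun m => Nat.Coprime m (a * d)) := by
    intro m hm
    have h1 := hSm m hm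
    have h2 := hSμ m hm
    rw [mem_filter, mem_Ioc]
    exact ⟨⟨(Nat.floor_lt hμ0.le).2 h2.1, le_min (Nat.le_floor h2.2) h1.2.1⟩, h1.2.2.1⟩
  have hTB : T ⊆ (Icc 1 N₂).filter (fun n => Nat.Coprime n (a * d)) := by
    intro m hm
    have h1 := hTn m hm
    have h2 := hTν m hm
    rw [mem_filter, mem_Icc]
    exact ⟨⟨h1.1, le_min (Nat.le_floor h2.2) h1.2.1⟩, h1.2.2.1⟩
  have hM12 : M₁ ≤ M₂ := by
    have := mem_Ioc.1 (mem_filter.1 (hSA hm₀)).1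
    omega
  have had : a ≤ a * d := Nat.le_mul_of_pos_right a hd
  have hXf : ⌊X⌋₊ ≤ a := Nat.floor_le_of_le hXa
  have hYf : ⌊Y⌋₊ ≤ a := Nat.floor_le_of_le hYa
  have hM2a : M₂ ≤ M₁ + a * d := by
    have : M₂ ≤ ⌊X⌋₊ := min_le_right _ _
    omega
  have hN2a : N₂ ≤ a * d := by
    have : N₂ ≤ ⌊Y⌋₊ := min_le_right _ _
    omega
  have hcop : IsCoprime (1 + (a : ℤ) * β) (a : ℤ) := by
    refine ⟨1, -β, ?_⟩
    ring
  have hbox := hX (1 + (a : ℤ) * β) M₁ M₂ N₂ E₁ E₂ (fun m => if m ∈ S then al m else 0)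
    (fun n => if n ∈ T then be n else 0) hcop hM12 hM2a hN2a hE12
    (fun m => by
      show |if m ∈ S then al m else 0| ≤ 1
      split_ifs
      · exact hal m
      · simp)
    (fun n => by
      show |if n ∈ T then be n else 0| ≤ 1
      split_ifs
      · exact hbe n
      · simp)
  rw [sum_ext _ _ S T hSA hTB al be (fun m n => ((((Ioc E₁ E₂).filter
    (fun e : ℕ => ((a * d : ℕ) : ℤ) ∣ (m : ℤ) * n * e - (1 + (a : ℤ) * β))).card : ℝ) -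
            ((E₂ : ℝ) - E₁) / ((a * d : ℕ) : ℝ)))] at hbox
  have hM12' : (0 : ℝ) ≤ (M₂ : ℝ) - M₁ := by
    have : (M₁ : ℝ) ≤ M₂ := by exact_mod_cast hM12
    linarith
  have hM2X : (M₂ : ℝ) ≤ X := by
    have h1 : (M₂ : ℝ) ≤ (⌊X⌋₊ : ℝ) := by exact_mod_cast min_le_right _ _
    exact h1.trans (Nat.floor_le hX0)
  have hM2μ : (M₂ : ℝ) ≤ 2 * μ := by
    have h1 : (M₂ : ℝ) ≤ (⌊(1 + η) * μ⌋₊ : ℝ) := by exact_mod_cast min_le_left _ _
    have h2 := Nat.floor_le (a := (1 + η) * μ) (by positivity)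
    nlinarith
  have hN2Y : (N₂ : ℝ) ≤ Y := by
    have h1 : (N₂ : ℝ) ≤ (⌊Y⌋₊ : ℝ) := by exact_mod_cast min_le_right _ _
    exact h1.trans (Nat.floor_le hY0)
  have hN2ν : (N₂ : ℝ) ≤ 2 * ν := by
    have h1 : (N₂ : ℝ) ≤ (⌊(1 + η) * ν⌋₊ : ℝ) := by exact_mod_cast min_le_left _ _
    have h2 := Nat.floor_le (a := (1 + η) * ν) (by positivity)
    nlinarith
  have hM10 : (0 : ℝ) ≤ M₁ := Nat.cast_nonneg _
  have hE12' : (0 : ℝ) ≤ (E₂ : ℝ) - E₁ := by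
    have : (E₁ : ℝ) ≤ E₂ := by exact_mod_cast hE12
    linarith
  have hRR := hR ((M₂ : ℝ) - M₁) N₂ ((E₂ : ℝ) - E₁) μ ν hM12' (by linarith) (by linarith) hμ0
    (Nat.cast_nonneg _) hN2Y hN2ν hν0 hE12' hEb
  have hbox2 : |∑ m ∈ S, ∑ n ∈ T, al m * be n * ((((Ioc E₁ E₂).filter
      (fun e : ℕ => ((a * d : ℕ) : ℤ) ∣ (m : ℤ) * n * e - (1 + (a : ℤ) * β))).card : ℝ) -
            ((E₂ : ℝ) - E₁) / ((a * d : ℕ) : ℝ))| ≤ C₁ * R := by
    refine hbox.trans ?_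
    rw [mul_assoc]
    exact mul_le_mul_of_nonneg_left hRR hC₁
  -- the replacement
  have hdiff : |∑ m ∈ S, ∑ n ∈ T, al m * be n * ((cb a d β (m * n) : ℝ) -
      ((Bb a).card : ℝ) / (d * m * n)) - ∑ m ∈ S, ∑ n ∈ T, al m * be n * ((((Ioc E₁ E₂).filter
      (fun e : ℕ => ((a * d : ℕ) : ℤ) ∣ (m : ℤ) * n * e - (1 + (a : ℤ) * β))).card : ℝ) -
            ((E₂ : ℝ) - E₁) / ((a * d : ℕ) : ℝ))| ≤
      ∑ m ∈ S, ∑ n ∈ T,
        ((nr a η (m * n) : ℝ) + (2 / a + 10 * η * a * ((1 / m) * (1 / n)))) := by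
    rw [← sum_sub_distrib]
    refine (abs_sum_le_sum_abs _ _).trans (sum_le_sum fun m hm => ?_)
    rw [← sum_sub_distrib]
    refine (abs_sum_le_sum_abs _ _).trans (sum_le_sum fun n hn => ?_)
    have hm1 := hSm m hm
    have hn1 := hTn n hn
    have hmμ := hSμ m hm
    have hnν := hTν n hn
    have hm0 : (0 : ℝ) < m := by exact_mod_cast hm1.1
    have hn0 : (0 : ℝ) < n := by exact_mod_cast hn1.1
    have hP : μ * ν < ((m * n : ℕ) : ℝ) := by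
      push_cast
      exact mul_lt_mul'' hmμ.1 hnν.1 hμ0.le hν0.le
    have hQ : ((m * n : ℕ) : ℝ) ≤ (1 + η) ^ 2 * (μ * ν) := by
      push_cast
      calc (m : ℝ) * n ≤ ((1 + η) * μ) * ((1 + η) * ν) :=
            mul_le_mul hmμ.2 hnν.2 hn0.le (by positivity)
        _ = (1 + η) ^ 2 * (μ * ν) := by ring
    obtain ⟨q1, q2⟩ := hEq (m * n) hP hQ (Nat.Coprime.mul_left hm1.2.2.1 hn1.2.2.1)
    push_cast at q1 q2
    rw [← mul_sub, abs_mul]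
    have hab : |al m * be n| ≤ 1 := by
      rw [abs_mul]
      exact mul_le_one₀ (hal m) (abs_nonneg _) (hbe n)
    have hin : |((cb a d β (m * n) : ℝ) - ((Bb a).card : ℝ) / (d * m * n)) -
        ((((Ioc E₁ E₂).filter (fun e : ℕ => ((a * d : ℕ) : ℤ) ∣ (m : ℤ) * n * e -
          (1 + (a : ℤ) * β))).card : ℝ) - ((E₂ : ℝ) - E₁) / ((a * d : ℕ) : ℝ))| ≤
        (nr a η (m * n) : ℝ) + (2 / a + 10 * η * a * ((1 / m) * (1 / n))) := by
      have e1 : ((cb a d β (m * n) : ℝ) - ((Bb a).card : ℝ) / (d * m * n)) -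
        ((((Ioc E₁ E₂).filter (fun e : ℕ => ((a * d : ℕ) : ℤ) ∣ (m : ℤ) * n * e -
          (1 + (a : ℤ) * β))).card : ℝ) - ((E₂ : ℝ) - E₁) / ((a * d : ℕ) : ℝ)) =
        ((cb a d β (m * n) : ℝ) - (((Ioc E₁ E₂).filter (fun e : ℕ => ((a * d : ℕ) : ℤ) ∣
          (m : ℤ) * n * e - (1 + (a : ℤ) * β))).card : ℝ)) +
        (((E₂ : ℝ) - E₁) / ((a * d : ℕ) : ℝ) - ((Bb a).card : ℝ) / (d * (m * n))) := by
        rw [mul_assoc (d : ℝ) m n]
        ring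
      rw [e1]
      refine (abs_add_le _ _).trans (add_le_add ?_ ?_)
      · push_cast
        exact q1
      · push_cast
        refine q2.trans (add_le_add ?_ ?_)
        · exact div_le_div_of_nonneg_left (by norm_num) (by positivity) (by nlinarith)
        · have e2 : 10 * η * a / (d * (m * n)) = 10 * η * a * ((1 / m) * (1 / n)) / d := by
            field_simp
          rw [e2]
          exact div_le_self (by positivity) hd1
    calc |al m * be n| * _ ≤ 1 * _ := mul_le_mul hab hin (abs_nonneg _) zero_le_one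
      _ = _ := one_mul _
  have hfin := abs_sub_abs_le_abs_sub (∑ m ∈ S, ∑ n ∈ T, al m * be n * ((cb a d β (m * n) : ℝ) -
      ((Bb a).card : ℝ) / (d * m * n))) (∑ m ∈ S, ∑ n ∈ T, al m * be n * ((((Ioc E₁ E₂).filter
      (fun e : ℕ => ((a * d : ℕ) : ℤ) ∣ (m : ℤ) * n * e - (1 + (a : ℤ) * β))).card : ℝ) -
            ((E₂ : ℝ) - E₁) / ((a * d : ℕ) : ℝ)))
  linarith

theorem split (S T : Finset ℕ) (J : ℕ) (g : ℕ → ℕ) (hS : ∀ m ∈ S, g m ∈ range (J + 1))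
    (hT : ∀ n ∈ T, g n ∈ range (J + 1)) (f : ℕ → ℕ → ℝ) :
    ∑ m ∈ S, ∑ n ∈ T, f m n = ∑ i ∈ range (J + 1), ∑ j ∈ range (J + 1),
      ∑ m ∈ S.filter (fun m => g m = i), ∑ n ∈ T.filter (fun n => g n = j), f m n := by
  rw [← sum_fiberwise_of_maps_to hS]
  refine sum_congr rfl fun i _ => ?_
  refine Eq.trans ?_ sum_comm
  refine sum_congr rfl fun m _ => ?_
  rw [← sum_fiberwise_of_maps_to hT]

theorem hBL (hX : StBOX) (hE : StEDG) (hDB : StDB) : StBL := by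
  intro δ hδ hδ1
  obtain ⟨C₁, hC₁, hX⟩ := hX (δ / 100) (by positivity)
  obtain ⟨C₃, hC₃, hD⟩ := hDB (δ / 100) (by positivity)
  refine ⟨28 * C₃ ^ 2 + 2 + (1 + 100 / δ) ^ 2 + 3 * C₁ * (2000 / δ + 2) ^ 2, by positivity, ?_⟩
  intro a d β al be ha hd hda hβ hal hbe
  have hA : (1 : ℝ) ≤ a := by exact_mod_cast ha
  have hA0 : (0 : ℝ) < a := by linarith
  have hd1 : (1 : ℝ) ≤ d := by exact_mod_cast hd
  have hmono : ∀ x y : ℝ, x ≤ y → (a : ℝ) ^ x ≤ (a : ℝ) ^ y := fun x y h =>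
    Real.rpow_le_rpow_of_exponent_le hA h
  have hone : ∀ x : ℝ, 0 ≤ x → 1 ≤ (a : ℝ) ^ x := fun x h => Real.one_le_rpow hA h
  set η : ℝ := (a : ℝ) ^ (-(δ / 10)) / 10 with hη
  have hη0 : 0 < η := by positivity
  have hη1 : η ≤ 1 / 10 := by
    have h1 := hmono (-(δ / 10)) 0 (by linarith)
    rw [Real.rpow_zero] at h1
    rw [hη]
    linarith
  have hηa : η * a = (a : ℝ) ^ (1 - δ / 10) / 10 := by
    rw [hη, sub_eq_add_neg, Real.rpow_add hA0, Real.rpow_one]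
    ring
  set J := idx η a with hJ
  set S := (Icc 1 ⌊(a : ℝ) ^ (1 - δ)⌋₊).filter (fun m => Nat.Coprime m (a * d)) with hS
  set T := (Icc 1 ⌊(a : ℝ) ^ (1 / 8 - δ)⌋₊).filter (fun n => Nat.Coprime n (a * d)) with hT
  have hXa : (a : ℝ) ^ (1 - δ) ≤ a := by
    have := hmono (1 - δ) 1 (by linarith)
    rwa [Real.rpow_one] at this
  have hYa : (a : ℝ) ^ (1 / 8 - δ) ≤ a := by
    have := hmono (1 / 8 - δ) 1 (by linarith)
    rwa [Real.rpow_one] at this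
  have hSa : S ⊆ Icc 1 a := by
    intro m hm
    rw [hS, mem_filter, mem_Icc] at hm
    exact mem_Icc.2 ⟨hm.1.1, hm.1.2.trans (Nat.floor_le_of_le hXa)⟩
  have hTa : T ⊆ Icc 1 a := by
    intro m hm
    rw [hT, mem_filter, mem_Icc] at hm
    exact mem_Icc.2 ⟨hm.1.1, hm.1.2.trans (Nat.floor_le_of_le hYa)⟩
  have hSJ : ∀ m ∈ S, idx η m ∈ range (J + 1) := by
    intro m hm
    have := mem_Icc.1 (hSa hm)
    exact mem_range.2 (Nat.lt_succ_of_le (idx_le η hη0 a m this.1 this.2))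
  have hTJ : ∀ m ∈ T, idx η m ∈ range (J + 1) := by
    intro m hm
    have := mem_Icc.1 (hTa hm)
    exact mem_range.2 (Nat.lt_succ_of_le (idx_le η hη0 a m this.1 this.2))
  -- the parts
  have hpart := fun i j : ℕ => part_bd (δ / 100) C₁ (3 * (a : ℝ) ^ (1 - 12 / 25 * δ))
    ((a : ℝ) ^ (1 - δ)) ((a : ℝ) ^ (1 / 8 - δ)) η a d β i j al be hC₁.le
    (fun κ M₁ M₂ N₂ E₁ E₂ al be => hX a d κ M₁ M₂ N₂ E₁ E₂ al be ha hd) hE ha hd hβ hη0 hη1 hal hbe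
    hXa (by positivity) hYa (by positivity) (by positivity)
    (fun M N E μ ν h1 h2 h3 h4 h5 h6 h7 h8 h9 h10 => by
      push_cast
      exact box_num a d δ M N E μ ν hA hd1 hδ hδ1 hda h1 h2 h3 h4 h5 h6 h7 h8 h9 h10)
  rw [split S T J (idx η) hSJ hTJ]
  -- sum over the parts
  have hsum : |∑ i ∈ range (J + 1), ∑ j ∈ range (J + 1),
      ∑ m ∈ S.filter (fun m => idx η m = i), ∑ n ∈ T.filter (fun n => idx η n = j),
        al m * be n * ((cb a d β (m * n) : ℝ) - ((Bb a).card : ℝ) / (d * m * n))| ≤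
      ∑ m ∈ S, ∑ n ∈ T, ((nr a η (m * n) : ℝ) + (2 / a + 10 * η * a * ((1 / m) * (1 / n)))) +
        ((J : ℝ) + 1) ^ 2 * (C₁ * (3 * (a : ℝ) ^ (1 - 12 / 25 * δ))) := by
    rw [split S T J (idx η) hSJ hTJ (fun m n => ((nr a η (m * n) : ℝ) +
      (2 / a + 10 * η * a * ((1 / m) * (1 / n)))))]
    have e1 : ((J : ℝ) + 1) ^ 2 * (C₁ * (3 * (a : ℝ) ^ (1 - 12 / 25 * δ))) =
        ∑ i ∈ range (J + 1), ∑ j ∈ range (J + 1), (C₁ * (3 * (a : ℝ) ^ (1 - 12 / 25 * δ))) := by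
      rw [sum_const, sum_const, card_range, nsmul_eq_mul, nsmul_eq_mul]
      push_cast
      ring
    rw [e1, ← sum_add_distrib]
    refine (abs_sum_le_sum_abs _ _).trans (sum_le_sum fun i _ => ?_)
    rw [← sum_add_distrib]
    refine (abs_sum_le_sum_abs _ _).trans (sum_le_sum fun j _ => ?_)
    exact hpart i j
  refine hsum.trans ?_
  -- the number of parts
  have hlog0 : 0 ≤ Real.log a := Real.log_nonneg hA
  have hlog : Real.log a ≤ 100 / δ * (a : ℝ) ^ (δ / 100) := by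
    have h := Real.log_le_rpow_div (x := (a : ℝ)) (ε := δ / 100) hA0.le (by positivity)
    have e1 : (a : ℝ) ^ (δ / 100) / (δ / 100) = 100 / δ * (a : ℝ) ^ (δ / 100) := by
      field_simp
    rwa [e1] at h
  have hJb : (J : ℝ) + 1 ≤ (2000 / δ + 2) * (a : ℝ) ^ (11 / 100 * δ) := by
    have h := idx_bd η hη0 (by linarith) a ha
    have e1 : 2 * Real.log a / η = 20 * (a : ℝ) ^ (δ / 10) * Real.log a := by
      rw [hη, Real.rpow_neg hA0.le]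
      field_simp
      ring
    rw [e1] at h
    have h2 : 20 * (a : ℝ) ^ (δ / 10) * Real.log a ≤
        20 * (a : ℝ) ^ (δ / 10) * (100 / δ * (a : ℝ) ^ (δ / 100)) :=
      mul_le_mul_of_nonneg_left hlog (by positivity)
    have e2 : 20 * (a : ℝ) ^ (δ / 10) * (100 / δ * (a : ℝ) ^ (δ / 100)) =
        2000 / δ * (a : ℝ) ^ (11 / 100 * δ) := by
      have : (a : ℝ) ^ (11 / 100 * δ) = (a : ℝ) ^ (δ / 10) * (a : ℝ) ^ (δ / 100) := by
        rw [← Real.rpow_add hA0]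
        congr 1
        ring
      rw [this]
      ring
    have h3 := hone (11 / 100 * δ) (by positivity)
    calc (J : ℝ) + 1 ≤ 2000 / δ * (a : ℝ) ^ (11 / 100 * δ) + 2 := by linarith
      _ ≤ 2000 / δ * (a : ℝ) ^ (11 / 100 * δ) + 2 * (a : ℝ) ^ (11 / 100 * δ) := by linarith
      _ = _ := by ring
  have hboxes : ((J : ℝ) + 1) ^ 2 * (C₁ * (3 * (a : ℝ) ^ (1 - 12 / 25 * δ))) ≤
      3 * C₁ * (2000 / δ + 2) ^ 2 * (a : ℝ) ^ (1 - δ / 20) := by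
    have h1 : ((J : ℝ) + 1) ^ 2 ≤ ((2000 / δ + 2) * (a : ℝ) ^ (11 / 100 * δ)) ^ 2 :=
      pow_le_pow_left₀ (by positivity) hJb 2
    have h2 : ((a : ℝ) ^ (11 / 100 * δ)) ^ 2 * (a : ℝ) ^ (1 - 12 / 25 * δ) ≤
        (a : ℝ) ^ (1 - δ / 20) := by
      rw [← Real.rpow_natCast, ← Real.rpow_mul hA0.le, ← Real.rpow_add hA0]
      apply hmono
      push_cast
      linarith
    calc ((J : ℝ) + 1) ^ 2 * (C₁ * (3 * (a : ℝ) ^ (1 - 12 / 25 * δ)))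
        ≤ ((2000 / δ + 2) * (a : ℝ) ^ (11 / 100 * δ)) ^ 2 *
          (C₁ * (3 * (a : ℝ) ^ (1 - 12 / 25 * δ))) :=
          mul_le_mul_of_nonneg_right h1 (by positivity)
      _ = 3 * C₁ * (2000 / δ + 2) ^ 2 *
          (((a : ℝ) ^ (11 / 100 * δ)) ^ 2 * (a : ℝ) ^ (1 - 12 / 25 * δ)) := by ring
      _ ≤ _ := mul_le_mul_of_nonneg_left h2 (by positivity)
  -- the error terms
  have herr : ∑ m ∈ S, ∑ n ∈ T, ((nr a η (m * n) : ℝ) +
      (2 / a + 10 * η * a * ((1 / m) * (1 / n)))) =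
      ∑ m ∈ S, ∑ n ∈ T, (nr a η (m * n) : ℝ) + ((S.card : ℝ) * T.card * (2 / a) +
        10 * η * a * ((∑ m ∈ S, (1 : ℝ) / m) * ∑ n ∈ T, (1 : ℝ) / n)) := by
    simp only [sum_add_distrib, sum_const, nsmul_eq_mul, ← mul_sum]
    rw [sum_mul]
    ring
  have hE1 : ∑ m ∈ S, ∑ n ∈ T, (nr a η (m * n) : ℝ) ≤ 28 * C₃ ^ 2 * (a : ℝ) ^ (1 - δ / 20) := by
    have h1 := near_sum a η (C₃ * (2 * (a : ℝ) ^ (δ / 50))) S T hη0 (by
      intro b hb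
      rw [Bb, mem_Ioc] at hb
      refine (hD (a * b + 1) (by omega)).trans (mul_le_mul_of_nonneg_left ?_ (by linarith))
      have hb' : b ≤ a := by omega
      have hab : ((a * b + 1 : ℕ) : ℝ) ≤ 2 * (a : ℝ) ^ (2 : ℝ) := by
        have h2 : (b : ℝ) ≤ a := by exact_mod_cast hb'
        rw [Real.rpow_two]
        push_cast
        nlinarith
      calc ((a * b + 1 : ℕ) : ℝ) ^ (δ / 100) ≤ (2 * (a : ℝ) ^ (2 : ℝ)) ^ (δ / 100) :=
            Real.rpow_le_rpow (by positivity) hab (by positivity)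
        _ = 2 ^ (δ / 100) * (a : ℝ) ^ (δ / 50) := by
            rw [Real.mul_rpow (by norm_num) (by positivity), ← Real.rpow_mul hA0.le]
            congr 2
            ring
        _ ≤ 2 * (a : ℝ) ^ (δ / 50) := by
            refine mul_le_mul_of_nonneg_right ?_ (by positivity)
            calc (2 : ℝ) ^ (δ / 100) ≤ 2 ^ (1 : ℝ) :=
                  Real.rpow_le_rpow_of_exponent_le (by norm_num) (by linarith)
              _ = 2 := Real.rpow_one 2)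
    have h2 : 2 * η * a + 6 ≤ 7 * (a : ℝ) ^ (1 - δ / 10) := by
      have h3 := hone (1 - δ / 10) (by linarith)
      have e1 : 2 * η * a = 2 * (η * a) := by ring
      rw [e1, hηa]
      linarith
    have e3 : (a : ℝ) ^ (1 - δ / 10) * ((a : ℝ) ^ (δ / 50)) ^ 2 ≤ (a : ℝ) ^ (1 - δ / 20) := by
      rw [← Real.rpow_natCast, ← Real.rpow_mul hA0.le, ← Real.rpow_add hA0]
      apply hmono
      push_cast
      linarith
    calc ∑ m ∈ S, ∑ n ∈ T, (nr a η (m * n) : ℝ)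
        ≤ (2 * η * a + 6) * (C₃ * (2 * (a : ℝ) ^ (δ / 50))) ^ 2 := h1
      _ ≤ 7 * (a : ℝ) ^ (1 - δ / 10) * (C₃ * (2 * (a : ℝ) ^ (δ / 50))) ^ 2 :=
          mul_le_mul_of_nonneg_right h2 (by positivity)
      _ = 28 * C₃ ^ 2 * ((a : ℝ) ^ (1 - δ / 10) * ((a : ℝ) ^ (δ / 50)) ^ 2) := by ring
      _ ≤ _ := mul_le_mul_of_nonneg_left e3 (by positivity)
  have hE2 : (S.card : ℝ) * T.card * (2 / a) ≤ 2 * (a : ℝ) ^ (1 - δ / 20) := by
    have h1 : (S.card : ℝ) ≤ (a : ℝ) ^ (1 - δ) := by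
      have h2 : S.card ≤ ⌊(a : ℝ) ^ (1 - δ)⌋₊ := by
        refine (card_filter_le _ _).trans ?_
        rw [Nat.card_Icc]
        omega
      have h3 : (S.card : ℝ) ≤ (⌊(a : ℝ) ^ (1 - δ)⌋₊ : ℝ) := by exact_mod_cast h2
      exact h3.trans (Nat.floor_le (by positivity))
    have h4 : (T.card : ℝ) ≤ (a : ℝ) ^ (1 / 8 - δ) := by
      have h2 : T.card ≤ ⌊(a : ℝ) ^ (1 / 8 - δ)⌋₊ := by
        refine (card_filter_le _ _).trans ?_
        rw [Nat.card_Icc]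
        omega
      have h3 : (T.card : ℝ) ≤ (⌊(a : ℝ) ^ (1 / 8 - δ)⌋₊ : ℝ) := by exact_mod_cast h2
      exact h3.trans (Nat.floor_le (by positivity))
    have h5 : (S.card : ℝ) * T.card ≤ (a : ℝ) ^ (1 - δ) * (a : ℝ) ^ (1 / 8 - δ) :=
      mul_le_mul h1 h4 (Nat.cast_nonneg _) (by positivity)
    have h6 : (a : ℝ) ^ (1 - δ) * (a : ℝ) ^ (1 / 8 - δ) ≤ (a : ℝ) ^ (1 - δ / 20) * a := by
      have e1 : (a : ℝ) ^ (1 - δ / 20) * a = (a : ℝ) ^ (1 - δ / 20 + 1) := by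
        rw [Real.rpow_add hA0, Real.rpow_one]
      rw [e1, ← Real.rpow_add hA0]
      apply hmono
      linarith
    calc (S.card : ℝ) * T.card * (2 / a) ≤ (a : ℝ) ^ (1 - δ / 20) * a * (2 / a) :=
          mul_le_mul_of_nonneg_right (h5.trans h6) (by positivity)
      _ = 2 * (a : ℝ) ^ (1 - δ / 20) := by
          field_simp
  have hE3 : 10 * η * a * ((∑ m ∈ S, (1 : ℝ) / m) * ∑ n ∈ T, (1 : ℝ) / n) ≤
      (1 + 100 / δ) ^ 2 * (a : ℝ) ^ (1 - δ / 20) := by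
    have h1 := harm a S hSa
    have h2 := harm a T hTa
    have h0 : 0 ≤ ∑ n ∈ T, (1 : ℝ) / n := sum_nonneg fun n _ => by positivity
    have h3 : 1 + Real.log a ≤ (1 + 100 / δ) * (a : ℝ) ^ (δ / 100) := by
      have := hone (δ / 100) (by positivity)
      linarith
    have h4 : (∑ m ∈ S, (1 : ℝ) / m) * ∑ n ∈ T, (1 : ℝ) / n ≤
        ((1 + 100 / δ) * (a : ℝ) ^ (δ / 100)) * ((1 + 100 / δ) * (a : ℝ) ^ (δ / 100)) :=
      mul_le_mul (h1.trans h3) (h2.trans h3) h0 (by positivity)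
    have e1 : 10 * η * a = (a : ℝ) ^ (1 - δ / 10) := by
      rw [mul_assoc, hηa]
      ring
    rw [e1]
    have e2 : (a : ℝ) ^ (1 - δ / 10) * ((a : ℝ) ^ (δ / 100) * (a : ℝ) ^ (δ / 100)) ≤
        (a : ℝ) ^ (1 - δ / 20) := by
      rw [← Real.rpow_add hA0, ← Real.rpow_add hA0]
      apply hmono
      linarith
    calc (a : ℝ) ^ (1 - δ / 10) * ((∑ m ∈ S, (1 : ℝ) / m) * ∑ n ∈ T, (1 : ℝ) / n)
        ≤ (a : ℝ) ^ (1 - δ / 10) *
          (((1 + 100 / δ) * (a : ℝ) ^ (δ / 100)) * ((1 + 100 / δ) * (a : ℝ) ^ (δ / 100))) :=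
          mul_le_mul_of_nonneg_left h4 (by positivity)
      _ = (1 + 100 / δ) ^ 2 *
          ((a : ℝ) ^ (1 - δ / 10) * ((a : ℝ) ^ (δ / 100) * (a : ℝ) ^ (δ / 100))) := by ring
      _ ≤ _ := mul_le_mul_of_nonneg_left e2 (by positivity)
  rw [herr]
  have e9 : (28 * C₃ ^ 2 + 2 + (1 + 100 / δ) ^ 2 + 3 * C₁ * (2000 / δ + 2) ^ 2) *
      (a : ℝ) ^ (1 - δ / 20) = 28 * C₃ ^ 2 * (a : ℝ) ^ (1 - δ / 20) +
      2 * (a : ℝ) ^ (1 - δ / 20) + (1 + 100 / δ) ^ 2 * (a : ℝ) ^ (1 - δ / 20) +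
      3 * C₁ * (2000 / δ + 2) ^ 2 * (a : ℝ) ^ (1 - δ / 20) := by ring
  rw [e9]
  linarith

end Pool.Agent.Helper61.TW
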